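import Mathlib
import Pool.Agent.U469.EW.Stm

/-!
# Project EW, package CNTCUT: sums over boxes and the cutoff
-/

set_option autoImplicit false

open Pool.Agent.U469.EW

namespace Pool.Agent.U744.EW.CNTCUT

lemma mem_box {N : ℕ} {k : Wv} : k ∈ box N ↔ ∀ i, (k i).natAbs ≤ N := by
  unfold box
  rw [Fintype.mem_piFinset]
  refine forall_congr' fun i => ?_
  rw [Finset.mem_Icc]
  omega

theorem t_CNT : S_CNT := by
  intro N hN
  have hN' : (1 : ℝ) ≤ N := by exact_mod_cast hN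
  have hcard : ((box N).card : ℝ) ≤ 27 * (N : ℝ) ^ 3 := by
    have h1 : (box N).card = (2 * N + 1) ^ 3 := by
      unfold box
      rw [Fintype.card_piFinset_const]
      congr 1
      rw [Int.card_Icc]
      omega
    rw [h1]
    push_cast
    calc (2 * (N : ℝ) + 1) ^ 3 ≤ (3 * (N : ℝ)) ^ 3 := by gcongr; linarith
      _ = 27 * (N : ℝ) ^ 3 := by ring
  have hk : ∀ k ∈ box N, nsq k ≤ 3 * (N : ℝ) ^ 2 := by
    intro k hk
    rw [mem_box] at hk
    unfold nsq
    have h1 : ∀ i ∈ (Finset.univ : Finset (Fin 3)), ((k i : ℤ) : ℝ) ^ 2 ≤ (N : ℝ) ^ 2 := by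
      intro i _
      rw [sq_le_sq]
      have h2 : ((k i).natAbs : ℝ) ≤ N := by exact_mod_cast hk i
      rw [Nat.cast_natAbs, Int.cast_abs] at h2
      rwa [abs_of_nonneg (by positivity : (0 : ℝ) ≤ N)]
    refine (Finset.sum_le_sum h1).trans ?_
    rw [Finset.sum_const, Finset.card_univ, Fintype.card_fin, nsmul_eq_mul]
    norm_num
  calc ∑ k ∈ box N, nsq k ≤ (box N).card • (3 * (N : ℝ) ^ 2) :=
        Finset.sum_le_card_nsmul _ _ _ hk
    _ = ((box N).card : ℝ) * (3 * (N : ℝ) ^ 2) := by rw [nsmul_eq_mul]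
    _ ≤ (27 * (N : ℝ) ^ 3) * (3 * (N : ℝ) ^ 2) := by gcongr
    _ = 81 * (N : ℝ) ^ 5 := by ring

/-- the maximum norm -/
def sn (k : Wv) : ℕ := Finset.univ.sup fun i => (k i).natAbs

lemma sn_le {k : Wv} {N : ℕ} : sn k ≤ N ↔ ∀ i, (k i).natAbs ≤ N := by
  unfold sn
  rw [Finset.sup_le_iff]
  simp

lemma le_sn (k : Wv) (i : Fin 3) : (k i).natAbs ≤ sn k := sn_le.1 le_rfl i

lemma sn_neg (k : Wv) : sn (-k) = sn k := by
  unfold sn
  congr 1
  funext i
  rw [Pi.neg_apply, Int.natAbs_neg]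

lemma sn_add (k j : Wv) : sn (k + j) ≤ sn k + sn j := by
  rw [sn_le]
  intro i
  rw [Pi.add_apply]
  have h1 := le_sn k i
  have h2 := le_sn j i
  have h3 := Int.natAbs_add_le (k i) (j i)
  omega

lemma sn_sq (j : Wv) : ((sn j : ℕ) : ℝ) ≤ √(nsq j) := by
  apply Real.le_sqrt_of_sq_le
  obtain ⟨i, -, hi⟩ := Finset.exists_mem_eq_sup (Finset.univ : Finset (Fin 3)) ⟨0, Finset.mem_univ _⟩
    fun i => (j i).natAbs
  have h1 : sn j = (j i).natAbs := hi
  rw [h1, Nat.cast_natAbs, Int.cast_abs, sq_abs]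
  unfold nsq
  exact Finset.single_le_sum (f := fun i => ((j i : ℤ) : ℝ) ^ 2) (fun _ _ => by positivity)
    (Finset.mem_univ i)

lemma cut_eq (N : ℕ) (k : Wv) : cut N k = max 0 (min 1 (2 - ((sn k : ℕ) : ℝ) / N)) := rfl

lemma lip (x y : ℝ) : |max 0 (min 1 x) - max 0 (min 1 y)| ≤ |x - y| := by
  have h1 : |max 0 (min 1 x) - max 0 (min 1 y)| ≤ |min 1 x - min 1 y| := by
    have := abs_max_sub_max_le_abs (min 1 x) (min 1 y) 0
    rwa [max_comm, max_comm (min 1 y) 0] at this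
  have h2 : |min 1 x - min 1 y| ≤ |x - y| := by
    have := abs_min_sub_min_le_max 1 x 1 y
    rwa [sub_self, abs_zero, max_eq_right (abs_nonneg _)] at this
  exact h1.trans h2

theorem t_CUT : S_CUT := by
  intro N hN
  have hN' : (0 : ℝ) < N := by exact_mod_cast hN
  refine ⟨fun k => ⟨le_max_left _ _, max_le zero_le_one (min_le_left _ _)⟩, ?_, ?_, ?_, ?_⟩
  · intro k
    rw [cut_eq, cut_eq, sn_neg]
  · intro k hk
    rw [mem_box] at hk
    have h1 : ((sn k : ℕ) : ℝ) ≤ N := by exact_mod_cast sn_le.2 hk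
    have h2 : ((sn k : ℕ) : ℝ) / N ≤ 1 := by rwa [div_le_one hN']
    rw [cut_eq, min_eq_left (by linarith), max_eq_right zero_le_one]
  · intro k hk
    have h0 : ¬ sn k ≤ 2 * N := fun h => hk (mem_box.2 (sn_le.1 h))
    have h1 : (2 : ℝ) * N ≤ ((sn k : ℕ) : ℝ) := by
      have : 2 * N ≤ sn k := by omega
      exact_mod_cast this
    have h2 : 2 ≤ ((sn k : ℕ) : ℝ) / N := by rwa [le_div_iff₀ hN']
    rw [cut_eq, max_eq_left]
    exact (min_le_right _ _).trans (by linarith)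
  · intro k j
    rw [cut_eq, cut_eq]
    refine (lip _ _).trans ?_
    have h1 : (sn k : ℝ) ≤ sn (k - j) + sn j := by
      have := sn_add (k - j) j
      rw [sub_add_cancel] at this
      exact_mod_cast this
    have h2 : (sn (k - j) : ℝ) ≤ sn k + sn j := by
      have := sn_add k (-j)
      rw [sn_neg, ← sub_eq_add_neg] at this
      exact_mod_cast this
    have h3 := sn_sq j
    have h4 : (2 - ((sn k : ℕ) : ℝ) / N) - (2 - ((sn (k - j) : ℕ) : ℝ) / N) =
        (((sn (k - j) : ℕ) : ℝ) - ((sn k : ℕ) : ℝ)) / N := by ring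
    rw [h4, abs_div, abs_of_pos hN']
    gcongr
    rw [abs_le]
    constructor <;> linarith

end Pool.Agent.U744.EW.CNTCUT
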